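import Mathlib
set_option autoImplicit false
open scoped Pointwise

/-!
Central extensions of finitely generated groups whose kernel is undistorted are
quasi-isometrically trivial.
-/

namespace Pool.Agent.H397R3

section length
variable {E : Type} [Group E] {S : Set E}

theorem pow_mono (h1 : (1 : E) ∈ S) {m n : ℕ} (h : m ≤ n) : S ^ m ⊆ S ^ n :=
  Set.pow_right_monotone h1 h

theorem inv_pow_mem (hinv : ∀ x ∈ S, x⁻¹ ∈ S) (n : ℕ) : ∀ x ∈ S ^ n, x⁻¹ ∈ S ^ n := by
  induction n with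
  | zero => intro x hx; simpa using hx
  | succ n ih =>
    intro x hx
    rw [pow_succ] at hx
    obtain ⟨a, ha, b, hb, rfl⟩ := Set.mem_mul.1 hx
    rw [mul_inv_rev, pow_succ']
    exact Set.mul_mem_mul (hinv b hb) (ih a ha)

theorem exists_pow (hc : Subgroup.closure S = ⊤) (_ : (1 : E) ∈ S) (hinv : ∀ x ∈ S, x⁻¹ ∈ S)
    (x : E) : ∃ n : ℕ, x ∈ S ^ n := by
  have hx : x ∈ Subgroup.closure S := by rw [hc]; trivial
  induction hx using Subgroup.closure_induction with
  | mem x hx => exact ⟨1, by simpa using hx⟩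
  | one => exact ⟨0, by simp⟩
  | mul x y _ _ hx hy =>
    obtain ⟨m, hm⟩ := hx
    obtain ⟨n, hn⟩ := hy
    exact ⟨m + n, by rw [pow_add]; exact Set.mul_mem_mul hm hn⟩
  | inv x _ hx =>
    obtain ⟨m, hm⟩ := hx
    exact ⟨m, inv_pow_mem hinv m x hm⟩

/-- every finite set lies in a power of `S` -/
theorem finite_sub (hc : Subgroup.closure S = ⊤) (h1 : (1 : E) ∈ S) (hinv : ∀ x ∈ S, x⁻¹ ∈ S)
    {F : Set E} (hF : F.Finite) : ∃ n : ℕ, F ⊆ S ^ n := by
  induction F, hF using Set.Finite.induction_on with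
  | empty => exact ⟨0, by simp⟩
  | insert _ _ ih =>
    rename_i a s _ _
    obtain ⟨n, hn⟩ := ih
    obtain ⟨m, hm⟩ := exists_pow hc h1 hinv a
    refine ⟨max m n, ?_⟩
    rintro x (rfl | hx)
    · exact pow_mono h1 (le_max_left _ _) hm
    · exact pow_mono h1 (le_max_right _ _) (hn hx)

/-- word length -/
noncomputable def len (S : Set E) (x : E) : ℕ := sInf {n : ℕ | x ∈ S ^ n}

theorem len_mem (hc : Subgroup.closure S = ⊤) (h1 : (1 : E) ∈ S) (hinv : ∀ x ∈ S, x⁻¹ ∈ S)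
    (x : E) : x ∈ S ^ len S x :=
  Nat.sInf_mem (exists_pow hc h1 hinv x)

theorem len_le {x : E} {n : ℕ} (h : x ∈ S ^ n) : len S x ≤ n := Nat.sInf_le h

theorem len_mul (hc : Subgroup.closure S = ⊤) (h1 : (1 : E) ∈ S) (hinv : ∀ x ∈ S, x⁻¹ ∈ S)
    (x y : E) : len S (x * y) ≤ len S x + len S y := by
  apply len_le
  rw [pow_add]
  exact Set.mul_mem_mul (len_mem hc h1 hinv x) (len_mem hc h1 hinv y)

theorem len_inv (hc : Subgroup.closure S = ⊤) (h1 : (1 : E) ∈ S) (hinv : ∀ x ∈ S, x⁻¹ ∈ S)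
    (x : E) : len S x⁻¹ ≤ len S x :=
  len_le (inv_pow_mem hinv _ x (len_mem hc h1 hinv x))

end length

/-- A Lipschitz equivariant extension of a homomorphism on a central subgroup
(the McShane extension). -/
theorem mcshane {Z E : Type} [Group Z] [Group E] (ι : Z →* E) (hcen : ι.range ≤ Subgroup.center E)
    {S : Set E} (hc : Subgroup.closure S = ⊤) (h1 : (1 : E) ∈ S) (hinv : ∀ x ∈ S, x⁻¹ ∈ S)
    (χ : Z → ℤ) (hχ : ∀ z w, χ (z * w) = χ z + χ w) (B : ℕ)
    (hB : ∀ z, |χ z| ≤ B * len S (ι z) + B) :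
    ∃ h : E → ℤ, (∀ e w, h (e * ι w) = h e + χ w) ∧ (∀ e x, |h (e * x) - h e| ≤ B * len S x) := by
  have hcomm : ∀ z e, ι z * e = e * ι z := by
    intro z e
    have := hcen ⟨z, rfl⟩
    exact ((Subgroup.mem_center_iff.1 this) e).symm
  let A : E → Set ℤ := fun e => {m | ∃ z, m = χ z + B * len S ((ι z)⁻¹ * e)}
  let h : E → ℤ := fun e => sInf (A e)
  have hne : ∀ e, (A e).Nonempty := fun e => ⟨_, 1, rfl⟩
  have hbd : ∀ e, BddBelow (A e) := by
    intro e
    refine ⟨-(B * len S e) - B, ?_⟩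
    rintro m ⟨z, rfl⟩
    have e1 : ι z = e * ((ι z)⁻¹ * e)⁻¹ := by group
    have e2 : len S (ι z) ≤ len S e + len S ((ι z)⁻¹ * e) := by
      calc len S (ι z) = len S (e * ((ι z)⁻¹ * e)⁻¹) := by rw [← e1]
        _ ≤ len S e + len S ((ι z)⁻¹ * e)⁻¹ := len_mul hc h1 hinv _ _
        _ ≤ _ := Nat.add_le_add_left (len_inv hc h1 hinv _) _
    have e3 := hB z
    rw [abs_le] at e3
    have e4 : (B : ℤ) * len S (ι z) ≤ B * (len S e + len S ((ι z)⁻¹ * e)) := by
      apply mul_le_mul_of_nonneg_left _ (by positivity)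
      exact_mod_cast e2
    nlinarith [e3.1]
  have hmin : ∀ e, ∃ z, h e = χ z + B * len S ((ι z)⁻¹ * e) := fun e => Int.csInf_mem (hne e) (hbd e)
  have hle : ∀ e z, h e ≤ χ z + B * len S ((ι z)⁻¹ * e) := fun e z => csInf_le (hbd e) ⟨z, rfl⟩
  have hχ1 : χ 1 = 0 := by
    have := hχ 1 1
    rw [mul_one] at this
    omega
  have hχinv : ∀ w, χ w⁻¹ = - χ w := by
    intro w
    have := hχ w w⁻¹
    rw [mul_inv_cancel, hχ1] at this
    omega
  have heq : ∀ e w, h (e * ι w) ≤ h e + χ w := by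
    intro e w
    obtain ⟨z, hz⟩ := hmin e
    have := hle (e * ι w) (z * w)
    have e1 : (ι (z * w))⁻¹ * (e * ι w) = (ι z)⁻¹ * e := by
      calc (ι (z * w))⁻¹ * (e * ι w) = (ι w)⁻¹ * ((ι z)⁻¹ * e * ι w) := by
            rw [map_mul, mul_inv_rev]; group
        _ = (ι w)⁻¹ * (ι w * ((ι z)⁻¹ * e)) := by rw [hcomm]
        _ = (ι z)⁻¹ * e := by group
    rw [e1, hχ] at this
    omega
  have hlip : ∀ e x, h (e * x) ≤ h e + B * len S x := by
    intro e x
    obtain ⟨z, hz⟩ := hmin e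
    have e1 := hle (e * x) z
    have e2 : len S ((ι z)⁻¹ * (e * x)) ≤ len S ((ι z)⁻¹ * e) + len S x := by
      rw [← mul_assoc]
      exact len_mul hc h1 hinv _ _
    have e3 : (B : ℤ) * len S ((ι z)⁻¹ * (e * x)) ≤ B * (len S ((ι z)⁻¹ * e) + len S x) := by
      apply mul_le_mul_of_nonneg_left _ (by positivity)
      exact_mod_cast e2
    nlinarith
  refine ⟨h, ?_, ?_⟩
  · intro e w
    have a1 := heq e w
    have a2 := heq (e * ι w) w⁻¹
    rw [map_inv, mul_inv_cancel_right, hχinv] at a2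
    omega
  · intro e x
    have a1 := hlip e x
    have a2 := hlip (e * x) x⁻¹
    rw [mul_inv_cancel_right] at a2
    have a3 : (B : ℤ) * len S x⁻¹ ≤ B * len S x := by
      apply mul_le_mul_of_nonneg_left _ (by positivity)
      exact_mod_cast len_inv hc h1 hinv x
    rw [abs_le]
    constructor <;> omega

/-- a finitely generated abelian group is a finite extension of a free abelian group. -/
theorem struct {Z : Type} [Group Z] (hcomm : ∀ a b : Z, a * b = b * a) (SZ : Finset Z)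
    (hSZ : Subgroup.closure (SZ : Set Z) = ⊤) :
    ∃ (j : Type) (_ : Fintype j) (T : Type) (_ : Group T) (_ : Finite T),
      Nonempty (Z ≃* (j → Multiplicative ℤ) × T) := by
  let _ : CommGroup Z := { ‹Group Z› with mul_comm := hcomm }
  have _ : Group.FG Z := ⟨⟨SZ, hSZ⟩⟩
  obtain ⟨ι, j, _, _, p, hp, e, ⟨f⟩⟩ := CommGroup.equiv_free_prod_prod_multiplicative_zmod Z
  haveI : ∀ i, NeZero (p i ^ e i) := fun i => ⟨pow_ne_zero _ (hp i).ne_zero⟩
  haveI : ∀ i, Finite (Multiplicative (ZMod (p i ^ e i))) := fun i => by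
    haveI : Finite (ZMod (p i ^ e i)) := inferInstance
    exact inferInstanceAs (Finite (ZMod (p i ^ e i)))
  exact ⟨j, inferInstance, ((i : ι) → Multiplicative (ZMod (p i ^ e i))), inferInstance,
    inferInstance, ⟨f⟩⟩

/-- the main theorem -/
theorem qi_trivial {Z E G : Type} [Group Z] [Group E] [Group G] (ι : Z →* E) (π : E →* G)
    (hι : Function.Injective ι) (hπ : Function.Surjective π) (hex : ι.range = π.ker)
    (hcen : ι.range ≤ Subgroup.center E) (SZ : Finset Z) (SE : Finset E) (SP : Finset (Z × G))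
    (z1 : Subgroup.closure (SZ : Set Z) = ⊤)
    (e1 : Subgroup.closure (SE : Set E) = ⊤) (e2 : (1 : E) ∈ SE) (e3 : ∀ x ∈ SE, x⁻¹ ∈ SE)
    (p1 : Subgroup.closure (SP : Set (Z × G)) = ⊤) (p2 : (1 : Z × G) ∈ SP)
    (p3 : ∀ x ∈ SP, x⁻¹ ∈ SP)
    (hC : ∃ C : ℕ, ∀ (z : Z) (n : ℕ),
          ι z ∈ (SE : Set E) ^ n → z ∈ (SZ : Set Z) ^ (C * n + C)) :
    ∃ (f : Z × G → E) (C : ℕ), (∀ p : Z × G, π (f p) = p.2) ∧
          (∀ (p q : Z × G) (n : ℕ), p⁻¹ * q ∈ (SP : Set (Z × G)) ^ n →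
              (f p)⁻¹ * f q ∈ (SE : Set E) ^ (C * n + C)) ∧
          (∀ (p q : Z × G) (n : ℕ), (f p)⁻¹ * f q ∈ (SE : Set E) ^ n →
              p⁻¹ * q ∈ (SP : Set (Z × G)) ^ (C * n + C)) ∧
          (∀ e : E, ∃ p : Z × G, (f p)⁻¹ * e ∈ (SE : Set E) ^ C) := by
  classical
  obtain ⟨C, hC⟩ := hC
  have hcm : ∀ z e, ι z * e = e * ι z := by
    intro z e
    have := hcen ⟨z, rfl⟩
    exact ((Subgroup.mem_center_iff.1 this) e).symm
  have hcomm : ∀ a b : Z, a * b = b * a := by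
    intro a b
    apply hι
    rw [map_mul, map_mul, hcm]
  obtain ⟨j, _, T, _, _, ⟨φ⟩⟩ := struct hcomm SZ z1
  let χ : j → Z → ℤ := fun i z => Multiplicative.toAdd ((φ z).1 i)
  have hχ : ∀ i z w, χ i (z * w) = χ i z + χ i w := by
    intro i z w
    simp [χ]
  have hχ1 : ∀ i, χ i 1 = 0 := by
    intro i
    simp [χ]
  -- surjectivity
  have hsurj : ∀ v : j → ℤ, ∃ z : Z, ∀ i, χ i z = v i := by
    intro v
    refine ⟨φ.symm (fun i => Multiplicative.ofAdd (v i), 1), ?_⟩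
    intro i
    simp [χ]
  -- finite fibres
  have hfin : ∀ R : ℤ, {z : Z | ∀ i, |χ i z| ≤ R}.Finite := by
    intro R
    have hf1 : (Set.pi Set.univ (fun _ : j => Set.Icc (-R) R)).Finite :=
      Set.Finite.pi (fun _ => Set.finite_Icc _ _)
    have hf2 : ((Set.pi Set.univ (fun _ : j => Set.Icc (-R) R)) ×ˢ (Set.univ : Set T)).Finite :=
      hf1.prod Set.finite_univ
    let g : Z → (j → ℤ) × T := fun z => (fun i => χ i z, (φ z).2)
    have hg : Function.Injective g := by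
      intro z w hzw
      apply φ.injective
      have h1 := congrArg Prod.fst hzw
      have h2 := congrArg Prod.snd hzw
      apply Prod.ext
      · funext i
        exact Multiplicative.toAdd.injective (congrFun h1 i)
      · exact h2
    refine (hf2.preimage hg.injOn).subset ?_
    intro z hz
    simp only [Set.mem_preimage, Set.mem_prod, Set.mem_pi, Set.mem_univ, and_true, forall_true_left,
      g, Set.mem_Icc]
    intro i
    exact abs_le.1 (hz i)
  -- bounds for characters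
  let B0 : ℕ := ∑ i : j, ∑ s ∈ SZ, (χ i s).natAbs
  have hB0 : ∀ i, ∀ s ∈ SZ, |χ i s| ≤ B0 := by
    intro i s hs
    have a1 : (χ i s).natAbs ≤ ∑ s ∈ SZ, (χ i s).natAbs :=
      Finset.single_le_sum (f := fun s => (χ i s).natAbs) (fun _ _ => Nat.zero_le _) hs
    have a2 : ∑ s ∈ SZ, (χ i s).natAbs ≤ B0 :=
      Finset.single_le_sum (f := fun i => ∑ s ∈ SZ, (χ i s).natAbs) (fun _ _ => Nat.zero_le _)
        (Finset.mem_univ i)
    have a3 := a1.trans a2
    rw [Int.abs_eq_natAbs]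
    exact_mod_cast a3
  have hBn : ∀ i (n : ℕ), ∀ z ∈ (SZ : Set Z) ^ n, |χ i z| ≤ B0 * n := by
    intro i n
    induction n with
    | zero =>
      intro z hz
      rw [pow_zero, Set.mem_one] at hz
      rw [hz, hχ1]
      simp
    | succ n ih =>
      intro z hz
      rw [pow_succ] at hz
      obtain ⟨a, ha, b, hb, rfl⟩ := Set.mem_mul.1 hz
      have b1 := ih a ha
      have b2 := hB0 i b hb
      rw [hχ]
      have b3 := abs_add_le (χ i a) (χ i b)
      push_cast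
      nlinarith
  have hB : ∀ i z, |χ i z| ≤ ((B0 * C : ℕ) : ℤ) * len (SE : Set E) (ι z) + ((B0 * C : ℕ) : ℤ) := by
    intro i z
    have b1 := hBn i _ z (hC z _ (len_mem e1 e2 e3 (ι z)))
    push_cast at b1 ⊢
    nlinarith
  choose h hh1 hh2 using fun i => mcshane ι hcen e1 e2 e3 (χ i) (hχ i) (B0 * C) (hB i)
  -- the section
  have hsec : ∀ g : G, ∃ x : E, π x = g ∧ ∀ i, h i x = 0 := by
    intro g
    obtain ⟨x0, hx0⟩ := hπ g
    obtain ⟨w, hw⟩ := hsurj (fun i => - h i x0)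
    refine ⟨x0 * ι w, ?_, ?_⟩
    · have : ι w ∈ π.ker := by rw [← hex]; exact ⟨w, rfl⟩
      rw [map_mul, hx0, (MonoidHom.mem_ker).1 this, mul_one]
    · intro i
      rw [hh1, hw]
      omega
  choose σ hσ1 hσ2 using hsec
  have hker : ∀ x y : E, π x = π y → ∃ w : Z, y = x * ι w := by
    intro x y hxy
    have : x⁻¹ * y ∈ ι.range := by
      rw [hex, MonoidHom.mem_ker, map_mul, map_inv, hxy, inv_mul_cancel]
    obtain ⟨w, hw⟩ := this
    exact ⟨w, by rw [hw]; group⟩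
  have hπι : ∀ z, π (ι z) = 1 := by
    intro z
    have : ι z ∈ π.ker := by rw [← hex]; exact ⟨z, rfl⟩
    exact (MonoidHom.mem_ker).1 this
  let f : Z × G → E := fun p => σ p.2 * ι p.1
  have hf1 : ∀ p, π (f p) = p.2 := by
    intro p
    simp only [f, map_mul, hσ1, hπι, mul_one]
  have hfs : Function.Surjective f := by
    intro x
    obtain ⟨w, hw⟩ := hker (σ (π x)) x (hσ1 _)
    exact ⟨(w, π x), hw.symm⟩
  have hfh : ∀ p i, h i (f p) = χ i p.1 := by
    intro p i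
    simp only [f, hh1, hσ2]
    omega
  have hfi : Function.Injective f := by
    rintro ⟨z, g⟩ ⟨z', g'⟩ hpq
    have h1 : g = g' := by
      have := congrArg π hpq
      rwa [hf1, hf1] at this
    subst h1
    have h2 : σ g * ι z = σ g * ι z' := hpq
    rw [hι (mul_left_cancel h2)]
  have hχinv : ∀ i w, χ i w⁻¹ = - χ i w := by
    intro i w
    have := hχ i w w⁻¹
    rw [mul_inv_cancel, hχ1] at this
    omega
  -- forward direction for generators
  obtain ⟨L, hL⟩ : ∃ L : ℕ, ∀ s ∈ SP, len (SE : Set E) (σ s.2) ≤ L :=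
    ⟨∑ s ∈ SP, len (SE : Set E) (σ s.2), fun s hs =>
      Finset.single_le_sum (f := fun s => len (SE : Set E) (σ s.2)) (fun _ _ => Nat.zero_le _) hs⟩
  obtain ⟨C1, hC1⟩ : ∃ C1 : ℕ, ∀ p q : Z × G, p⁻¹ * q ∈ SP → (f p)⁻¹ * f q ∈ (SE : Set E) ^ C1 := by
    have hF : ((fun y : (Z × G) × Z => σ y.1.2 * ι y.2 * ι y.1.1) ''
        ((SP : Set (Z × G)) ×ˢ {z : Z | ∀ i, |χ i z| ≤ ((B0 * C : ℕ) : ℤ) * L})).Finite :=
      (SP.finite_toSet.prod (hfin _)).image _
    obtain ⟨C1, hC1⟩ := finite_sub e1 e2 e3 hF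
    refine ⟨C1, ?_⟩
    intro p q hpq
    apply hC1
    set s : Z × G := p⁻¹ * q with hs
    have hq : q = p * s := by rw [hs]; group
    obtain ⟨w, hw⟩ := hker (σ p.2 * σ s.2) (σ q.2) (by rw [map_mul, hσ1, hσ1, hσ1, hq]; rfl)
    refine ⟨(s, w), ⟨hpq, ?_⟩, ?_⟩
    · intro i
      have c1 := hσ2 q.2 i
      rw [hw, hh1] at c1
      have c2 := hh2 i (σ p.2) (σ s.2)
      rw [hσ2] at c2
      have c3 : ((B0 * C : ℕ) : ℤ) * len (SE : Set E) (σ s.2) ≤ ((B0 * C : ℕ) : ℤ) * L := by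
        apply mul_le_mul_of_nonneg_left _ (by positivity)
        exact_mod_cast hL s hpq
      show |χ i w| ≤ _
      rw [abs_le] at c2 ⊢
      constructor <;> omega
    · show σ s.2 * ι w * ι s.1 = (σ p.2 * ι p.1)⁻¹ * (σ q.2 * ι q.1)
      have d1 : q.1 = p.1 * s.1 := by rw [hq]; rfl
      rw [hw, d1, map_mul, mul_inv_rev]
      calc σ s.2 * ι w * ι s.1 = (ι p.1)⁻¹ * (ι p.1 * (σ s.2 * ι w)) * ι s.1 := by group
        _ = (ι p.1)⁻¹ * (σ s.2 * ι w * ι p.1) * ι s.1 := by rw [hcm p.1]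
        _ = _ := by group
  have hfwd : ∀ (n : ℕ) (p q : Z × G), p⁻¹ * q ∈ (SP : Set (Z × G)) ^ n →
      (f p)⁻¹ * f q ∈ (SE : Set E) ^ (C1 * n) := by
    intro n
    induction n with
    | zero =>
      intro p q hpq
      rw [pow_zero, Set.mem_one] at hpq
      have : p = q := by
        have := inv_mul_eq_one.1 hpq
        exact this
      subst this
      simp
    | succ n ih =>
      intro p q hpq
      rw [pow_succ] at hpq
      obtain ⟨x, hx, s, hs, hxs⟩ := Set.mem_mul.1 hpq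
      have a1 := ih p (p * x) (by rwa [inv_mul_cancel_left])
      have a2 := hC1 (p * x) q (by
        have : (p * x)⁻¹ * q = s := by
          rw [mul_inv_rev, mul_assoc, ← hxs]; group
        rw [this]; exact hs)
      have a3 : (f p)⁻¹ * f q = ((f p)⁻¹ * f (p * x)) * ((f (p * x))⁻¹ * f q) := by group
      rw [a3, show C1 * (n + 1) = C1 * n + C1 by ring, pow_add]
      exact Set.mul_mem_mul a1 a2
  -- backward direction for generators
  obtain ⟨C2, hC2⟩ : ∃ C2 : ℕ, ∀ p q : Z × G, (f p)⁻¹ * f q ∈ (SE : Set E) →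
      p⁻¹ * q ∈ (SP : Set (Z × G)) ^ C2 := by
    have hF : ({z : Z | ∀ i, |χ i z| ≤ ((B0 * C : ℕ) : ℤ)} ×ˢ (π '' (SE : Set E))).Finite :=
      (hfin _).prod (SE.finite_toSet.image _)
    obtain ⟨C2, hC2⟩ := finite_sub p1 p2 p3 hF
    refine ⟨C2, ?_⟩
    intro p q hpq
    apply hC2
    set s := (f p)⁻¹ * f q with hs
    have hq : f q = f p * s := by rw [hs]; group
    refine ⟨?_, ?_⟩
    · intro i
      have c2 := hh2 i (f p) s
      rw [← hq, hfh, hfh] at c2
      have c3 : len (SE : Set E) s ≤ 1 := len_le (by simpa using hpq)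
      have c4 : ((B0 * C : ℕ) : ℤ) * len (SE : Set E) s ≤ ((B0 * C : ℕ) : ℤ) * 1 := by
        apply mul_le_mul_of_nonneg_left _ (by positivity)
        exact_mod_cast c3
      have c5 : χ i (p⁻¹ * q).1 = χ i q.1 - χ i p.1 := by
        show χ i (p.1⁻¹ * q.1) = _
        rw [hχ, hχinv]
        omega
      rw [c5]
      omega
    · refine ⟨s, hpq, ?_⟩
      rw [hs, map_mul, map_inv, hf1, hf1]
      rfl
  have hbwd : ∀ (n : ℕ) (p q : Z × G), (f p)⁻¹ * f q ∈ (SE : Set E) ^ n →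
      p⁻¹ * q ∈ (SP : Set (Z × G)) ^ (C2 * n) := by
    intro n
    induction n with
    | zero =>
      intro p q hpq
      rw [pow_zero, Set.mem_one] at hpq
      have : p = q := hfi (inv_mul_eq_one.1 hpq)
      subst this
      simp
    | succ n ih =>
      intro p q hpq
      rw [pow_succ] at hpq
      obtain ⟨x, hx, s, hs, hxs⟩ := Set.mem_mul.1 hpq
      obtain ⟨r, hr⟩ := hfs (f p * x)
      have a1 := ih p r (by rwa [hr, inv_mul_cancel_left])
      have a2 := hC2 r q (by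
        have : (f r)⁻¹ * f q = s := by
          rw [hr, mul_inv_rev, mul_assoc, ← hxs]; group
        rw [this]; exact hs)
      have a3 : p⁻¹ * q = (p⁻¹ * r) * (r⁻¹ * q) := by group
      rw [a3, show C2 * (n + 1) = C2 * n + C2 by ring, pow_add]
      exact Set.mul_mem_mul a1 a2
  refine ⟨f, C1 + C2, hf1, ?_, ?_, ?_⟩
  · intro p q n hpq
    refine pow_mono (by exact_mod_cast e2) ?_ (hfwd n p q hpq)
    nlinarith
  · intro p q n hpq
    refine pow_mono (by exact_mod_cast p2) ?_ (hbwd n p q hpq)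
    nlinarith
  · intro x
    obtain ⟨p, hp⟩ := hfs x
    refine ⟨p, ?_⟩
    rw [hp, inv_mul_cancel]
    exact pow_mono (m := 0) (by exact_mod_cast e2) (Nat.zero_le _) (by simp)

end Pool.Agent.H397R3
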