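import Mathlib
set_option autoImplicit false

/-!
Sharply `t`-homogeneous permutation groups on an infinite set, for every `t ≥ 1`:
a free group acting on the natural numbers, built by finite partial permutations.
-/

namespace Pool.Agent.H397R3.SharpHom

/-- finite labelled graphs: `(k, x, y)` means that the generator `k` maps `x` to `y` -/
abbrev St := Finset (ℕ × ℕ × ℕ)

/-- the step relation of a letter -/
def stp (E : St) (l : ℕ × Bool) (x y : ℕ) : Prop :=
  if l.2 then (l.1, x, y) ∈ E else (l.1, y, x) ∈ E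

/-- inverse letter -/
def linv (l : ℕ × Bool) : ℕ × Bool := (l.1, !l.2)

theorem linv_linv (l : ℕ × Bool) : linv (linv l) = l := by simp [linv]

theorem stp_linv (E : St) (l : ℕ × Bool) (x y : ℕ) : stp E (linv l) x y ↔ stp E l y x := by
  rcases l with ⟨k, b⟩
  cases b <;> simp [stp, linv]

theorem stp_mono {E E' : St} (h : E ⊆ E') {l : ℕ × Bool} {x y : ℕ} (hs : stp E l x y) :
    stp E' l x y := by
  unfold stp at *
  split_ifs at * with hb
  · exact h hs
  · exact h hs

/-- paths; the head of the word is applied last -/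
def path (E : St) : List (ℕ × Bool) → ℕ → ℕ → Prop
  | [], x, y => x = y
  | l :: w, x, y => ∃ z, path E w x z ∧ stp E l z y

theorem path_mono {E E' : St} (h : E ⊆ E') (w : List (ℕ × Bool)) :
    ∀ x y, path E w x y → path E' w x y := by
  induction w with
  | nil => intro x y h; exact h
  | cons l w ih =>
    rintro x y ⟨z, h1, h2⟩
    exact ⟨z, ih x z h1, stp_mono h h2⟩

theorem path_append (E : St) (u v : List (ℕ × Bool)) (x y : ℕ) :
    path E (u ++ v) x y ↔ ∃ z, path E v x z ∧ path E u z y := by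
  induction u generalizing y with
  | nil =>
    constructor
    · intro h; exact ⟨y, h, rfl⟩
    · rintro ⟨z, h, rfl⟩; exact h
  | cons l u ih =>
    constructor
    · rintro ⟨z, h1, h2⟩
      obtain ⟨z', h3, h4⟩ := (ih z).1 h1
      exact ⟨z', h3, z, h4, h2⟩
    · rintro ⟨z, h1, z', h2, h3⟩
      exact ⟨z', (ih z').2 ⟨z, h1, h2⟩, h3⟩

/-- partial injections -/
def Inj (E : St) : Prop := ∀ l x y y', stp E l x y → stp E l x y' → y = y'

theorem Inj.co {E : St} (h : Inj E) {l : ℕ × Bool} {x x' y : ℕ} (h1 : stp E l x y)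
    (h2 : stp E l x' y) : x = x' :=
  h (linv l) y x x' ((stp_linv E l y x).2 h1) ((stp_linv E l y x').2 h2)

theorem Inj.path_co {E : St} (h : Inj E) (w : List (ℕ × Bool)) :
    ∀ x x' y, path E w x y → path E w x' y → x = x' := by
  induction w with
  | nil => rintro x x' y rfl h2; exact h2.symm
  | cons l w ih =>
    rintro x x' y ⟨z, h1, h2⟩ ⟨z', h3, h4⟩
    have := h.co h2 h4
    subst this
    exact ih x x' z h1 h3

theorem Inj.path_det {E : St} (h : Inj E) (w : List (ℕ × Bool)) :
    ∀ x y y', path E w x y → path E w x y' → y = y' := by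
  induction w with
  | nil => rintro x y y' rfl h2; exact h2
  | cons l w ih =>
    rintro x y y' ⟨z, h1, h2⟩ ⟨z', h3, h4⟩
    have := ih x z z' h1 h3
    subst this
    exact h l z y y' h2 h4

/-- `w` maps `A` into `B` -/
def mp (E : St) (w : List (ℕ × Bool)) (A B : Finset ℕ) : Prop := ∀ x ∈ A, ∃ y ∈ B, path E w x y

theorem mp_mono {E E' : St} (h : E ⊆ E') {w : List (ℕ × Bool)} {A B : Finset ℕ}
    (hm : mp E w A B) : mp E' w A B := by
  intro x hx
  obtain ⟨y, hy, hp⟩ := hm x hx
  exact ⟨y, hy, path_mono h w x y hp⟩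

/-- surjectivity of words between sets of the same size -/
theorem mp_surj {E : St} (h : Inj E) {w : List (ℕ × Bool)} {A B : Finset ℕ} (hc : A.card = B.card)
    (hm : mp E w A B) : ∀ y ∈ B, ∃ x ∈ A, path E w x y := by
  choose! f hf1 hf2 using hm
  intro y hy
  have hinj : Set.InjOn f A := by
    intro x hx x' hx' hxx
    have h1 := hf2 x hx
    have h2 := hf2 x' hx'
    rw [hxx] at h1
    exact h.path_co w x x' _ h1 h2
  have hsurj := Finset.surj_on_of_inj_on_of_card_le (s := A) (t := B) (fun x _ => f x)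
    (fun x hx => hf1 x hx) (fun x x' hx hx' hxx => hinj hx hx' hxx) (by omega) y hy
  obtain ⟨x, hx, hxy⟩ := hsurj
  exact ⟨x, hx, by rw [hxy]; exact hf2 x hx⟩

/-- intermediate sets -/
theorem mp_split {E : St} (h : Inj E) {u v : List (ℕ × Bool)} {A B : Finset ℕ}
    (hc : A.card = B.card) (hm : mp E (u ++ v) A B) :
    ∃ C : Finset ℕ, C.card = A.card ∧ mp E v A C ∧ mp E u C B := by
  classical
  have h1 : ∀ x ∈ A, ∃ z, path E v x z ∧ ∃ y ∈ B, path E u z y := by
    intro x hx
    obtain ⟨y, hy, hp⟩ := hm x hx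
    obtain ⟨z, hz1, hz2⟩ := (path_append E u v x y).1 hp
    exact ⟨z, hz1, y, hy, hz2⟩
  choose! f hf1 hf2 using h1
  refine ⟨A.image f, ?_, ?_, ?_⟩
  · apply Finset.card_image_of_injOn
    intro x hx x' hx' hxx
    have a1 := hf1 x hx
    have a2 := hf1 x' hx'
    rw [hxx] at a1
    exact h.path_co v x x' _ a1 a2
  · intro x hx
    exact ⟨f x, Finset.mem_image_of_mem f hx, hf1 x hx⟩
  · intro z hz
    obtain ⟨x, hx, rfl⟩ := Finset.mem_image.1 hz
    exact hf2 x hx

theorem mp_comp {E : St} {u v : List (ℕ × Bool)} {A B C : Finset ℕ} (h1 : mp E v A B)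
    (h2 : mp E u B C) : mp E (u ++ v) A C := by
  intro x hx
  obtain ⟨y, hy, hp⟩ := h1 x hx
  obtain ⟨z, hz, hq⟩ := h2 y hy
  exact ⟨z, hz, (path_append E u v x z).2 ⟨y, hp, hq⟩⟩

/-- reduced words -/
def Red (w : List (ℕ × Bool)) : Prop := w.IsChain (fun a b => a.1 = b.1 → a.2 = b.2)

/-- good states -/
structure Good (t : ℕ) (E : St) : Prop where
  inj : Inj E
  free : ∀ w, w ≠ [] → Red w → ∀ S : Finset ℕ, S.card = t → ¬ mp E w S S

theorem good_empty {t : ℕ} (ht : 1 ≤ t) : Good t (∅ : St) := by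
  refine ⟨?_, ?_⟩
  · intro l x y y' h
    unfold stp at h
    split_ifs at h <;> simp at h
  · intro w hw _ S hS hm
    obtain ⟨x, hx⟩ := Finset.card_pos.1 (by omega : 0 < S.card)
    obtain ⟨y, _, hp⟩ := hm x hx
    cases w with
    | nil => exact hw rfl
    | cons l w =>
      obtain ⟨z, _, h2⟩ := hp
      unfold stp at h2
      split_ifs at h2 <;> simp at h2

/-- the conjugation step: a violation whose word is not cyclically reduced gives a shorter one -/
theorem shorten {E : St} (h : Inj E) {l m : ℕ × Bool} {u : List (ℕ × Bool)} {S : Finset ℕ}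
    (hlm : l = linv m) (hr : Red (l :: (u ++ [m]))) (hm : mp E (l :: (u ++ [m])) S S) :
    u ≠ [] ∧ Red u ∧ ∃ S' : Finset ℕ, S'.card = S.card ∧ mp E u S' S' := by
  have hu : u ≠ [] := by
    rintro rfl
    have h1 := (List.isChain_cons_cons.1 hr).1
    rw [hlm] at h1
    have h2 := h1 rfl
    simp [linv] at h2
  have hru : Red u := by
    have h1 : Red (u ++ [m]) := (List.isChain_cons.1 hr).2
    exact (List.isChain_append.1 h1).1
  refine ⟨hu, hru, ?_⟩
  obtain ⟨C, hC1, hC2, hC3⟩ := mp_split (u := l :: u) (v := [m]) h rfl hm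
  refine ⟨C, hC1, ?_⟩
  intro z hz
  obtain ⟨y, hy, z', h1, h2⟩ := hC3 z hz
  refine ⟨z', ?_, h1⟩
  obtain ⟨z'', hz'', z3, h3, h4⟩ := hC2 y hy
  have h5 : y = z3 := h3
  subst h5
  rw [hlm, stp_linv] at h2
  have := h m y z' z'' h2 h4
  rw [this]; exact hz''

/-- adding a leaf -/
theorem leaf {t : ℕ} {E : St} (hG : Good t E) (l0 : ℕ × Bool) (x y : ℕ) (hxy : x ≠ y)
    (hx : ∀ v, ¬ stp E l0 x v) (hy : ∀ l v, ¬ stp E l y v) :
    ∃ E' : St, E ⊆ E' ∧ Good t E' ∧ stp E' l0 x y := by
  classical
  let E' : St := insert (if l0.2 then (l0.1, x, y) else (l0.1, y, x)) E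
  have hE : E ⊆ E' := Finset.subset_insert _ _
  have hs : ∀ l u v, stp E' l u v ↔ (stp E l u v ∨ (l = l0 ∧ u = x ∧ v = y) ∨
      (l = linv l0 ∧ u = y ∧ v = x)) := by
    rintro ⟨k, b⟩ u v
    rcases l0 with ⟨k0, b0⟩
    cases b <;> cases b0 <;> simp [E', stp, linv] <;> tauto
  have hyout : ∀ l v, stp E' l y v → l = linv l0 ∧ v = x := by
    intro l v h
    rcases (hs l y v).1 h with h | ⟨h1, h2, h3⟩ | ⟨h1, h2, h3⟩
    · exact absurd h (hy l v)
    · exact absurd h2.symm hxy
    · exact ⟨h1, h3⟩
  have hyin : ∀ l u, stp E' l u y → l = l0 ∧ u = x := by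
    intro l u h
    have := hyout (linv l) u ((stp_linv E' l y u).2 h)
    refine ⟨?_, this.2⟩
    have h1 := congrArg linv this.1
    rwa [linv_linv, linv_linv] at h1
  have hinj : Inj E' := by
    intro l u v v' h1 h2
    rcases (hs l u v).1 h1 with c1 | ⟨a1, a2, a3⟩ | ⟨a1, a2, a3⟩
    · rcases (hs l u v').1 h2 with c2 | ⟨b1, b2, b3⟩ | ⟨b1, b2, b3⟩
      · exact hG.inj l u v v' c1 c2
      · rw [b1, b2] at c1; exact absurd c1 (hx v)
      · rw [b2] at c1; exact absurd c1 (hy l v)
    · rcases (hs l u v').1 h2 with c2 | ⟨b1, b2, b3⟩ | ⟨b1, b2, b3⟩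
      · rw [a1, a2] at c2; exact absurd c2 (hx v')
      · rw [a3, b3]
      · rw [a2] at b2; exact absurd b2 hxy
    · rcases (hs l u v').1 h2 with c2 | ⟨b1, b2, b3⟩ | ⟨b1, b2, b3⟩
      · rw [a2] at c2; exact absurd c2 (hy l v')
      · rw [a2] at b2; exact absurd b2.symm hxy
      · rw [a3, b3]
  refine ⟨E', hE, ⟨hinj, ?_⟩, (hs l0 x y).2 (Or.inr (Or.inl ⟨rfl, rfl, rfl⟩))⟩
  -- interior vertices are not `y`
  have hint : ∀ w, Red w → ∀ u v, path E' w u v → path E w u v ∨ u = y ∨ v = y := by
    intro w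
    induction w with
    | nil => intro _ u v h; exact Or.inl h
    | cons l w ih =>
      rintro hr u v ⟨z, h1, h2⟩
      have hr' : Red w := (List.isChain_cons.1 hr).2
      by_cases hz : z = y
      · subst hz
        cases w with
        | nil =>
          right; left
          exact h1
        | cons m w =>
          obtain ⟨z', h3, h4⟩ := h1
          have a1 := hyin m z' h4
          have a2 := hyout l v h2
          have a3 := (List.isChain_cons_cons.1 hr).1
          rw [a1.1, a2.1] at a3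
          have a4 := a3 rfl
          simp [linv] at a4
      · rcases ih hr' u z h1 with h3 | h3 | h3
        · rcases (hs l z v).1 h2 with h4 | ⟨_, _, h4⟩ | ⟨_, h4, _⟩
          · exact Or.inl ⟨z, h3, h4⟩
          · exact Or.inr (Or.inr h4)
          · exact absurd h4 hz
        · exact Or.inr (Or.inl h3)
        · exact absurd h3 hz
  have main : ∀ n : ℕ, ∀ w, w.length = n → w ≠ [] → Red w → ∀ S : Finset ℕ, S.card = t →
      ¬ mp E' w S S := by
    intro n
    induction n using Nat.strong_induction_on with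
    | _ n ih =>
    intro w hn hw hr S hS hm
    by_cases hyS : y ∈ S
    · -- first letter and last letter are inverse
      obtain ⟨v, _, hv⟩ := hm y hyS
      obtain ⟨u, _, hu⟩ := mp_surj hinj rfl hm y hyS
      obtain ⟨l, w', rfl⟩ := List.exists_cons_of_ne_nil hw
      have hl : l = l0 := by
        obtain ⟨z, _, h2⟩ := hu
        exact (hyin l z h2).1
      rcases List.eq_nil_or_concat' w' with rfl | ⟨w2, m, rfl⟩
      · obtain ⟨z, h1, h2⟩ := hv
        have h3 : y = z := h1
        subst h3
        have := (hyout l v h2).1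
        rw [hl] at this
        have h4 := congrArg Prod.snd this
        simp [linv] at h4
      · have hm2 : m = linv l0 := by
          have h1 : path E' ((l :: w2) ++ [m]) y v := by simpa using hv
          obtain ⟨z, h2, _⟩ := (path_append E' (l :: w2) [m] y v).1 h1
          obtain ⟨z', h3, h4⟩ := h2
          have h5 : y = z' := h3
          subst h5
          exact (hyout m z h4).1
        have hlm : l = linv m := by rw [hl, hm2, linv_linv]
        obtain ⟨a1, a2, S', a3, a4⟩ := shorten hinj hlm hr hm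
        refine ih w2.length ?_ w2 rfl a1 a2 S' (a3.trans hS) a4
        rw [← hn]
        simp
    · apply hG.free w hw hr S hS
      intro u hu
      obtain ⟨v, hv, hp⟩ := hm u hu
      rcases hint w hr u v hp with h | h | h
      · exact ⟨v, hv, h⟩
      · exact absurd (h ▸ hu) hyS
      · exact absurd (h ▸ hv) hyS
  exact fun w hw hr S hS => main w.length w rfl hw hr S hS

/-- adding a new generator -/
theorem newgen {t : ℕ} {E : St} (hG : Good t E) (A B : Finset ℕ) (hA : A.card = t)
    (hB : B.card = t) (h1 : ∀ w, ¬ mp E w A B) (h2 : ∀ w, ¬ mp E w B A) :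
    ∃ E' : St, E ⊆ E' ∧ Good t E' ∧ ∃ w, mp E' w A B := by
  classical
  -- a new label
  obtain ⟨n, hn⟩ : ∃ n : ℕ, ∀ p ∈ E, p.1 ≠ n := by
    obtain ⟨n, hn⟩ := Infinite.exists_notMem_finset (E.image Prod.fst)
    exact ⟨n, fun p hp h => hn (Finset.mem_image.2 ⟨p, hp, h⟩)⟩
  obtain ⟨β⟩ : Nonempty (A ≃ B) := ⟨Finset.equivOfCardEq (hA.trans hB.symm)⟩
  let E' : St := E ∪ Finset.image (fun a : {x // x ∈ A} => ((n, (a : ℕ), (β a : ℕ)) : ℕ × ℕ × ℕ)) A.attach
  have hE : E ⊆ E' := Finset.subset_union_left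
  have hmem : ∀ k u v, (k, u, v) ∈ E' ↔ ((k, u, v) ∈ E ∨ (k = n ∧ ∃ a : A, u = a ∧ v = β a)) := by
    intro k u v
    simp only [E', Finset.mem_union, Finset.mem_image, Finset.mem_attach, true_and,
      Prod.mk.injEq]
    constructor
    · rintro (h | ⟨a, h3, h4, h5⟩)
      · exact Or.inl h
      · exact Or.inr ⟨h3.symm, a, h4.symm, h5.symm⟩
    · rintro (h | ⟨h3, a, h4, h5⟩)
      · exact Or.inl h
      · exact Or.inr ⟨a, h3.symm, h4.symm, h5.symm⟩
  have hold : ∀ l u v, l.1 ≠ n → stp E' l u v → stp E l u v := by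
    rintro ⟨k, b⟩ u v hl h
    unfold stp at *
    simp only at hl
    split_ifs at * with hb
    · rcases (hmem k u v).1 h with h | h
      · exact h
      · exact absurd h.1 hl
    · rcases (hmem k v u).1 h with h | h
      · exact h
      · exact absurd h.1 hl
  -- domain and codomain of the new letters
  let dm : Bool → Finset ℕ := fun b => if b then A else B
  have hdm : ∀ b, (dm b).card = t := by
    intro b; cases b <;> simp [dm, hA, hB]
  have hnew : ∀ b u v, stp E' (n, b) u v → u ∈ dm b ∧ v ∈ dm (!b) := by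
    intro b u v h
    cases b
    · unfold stp at h
      simp only [Bool.false_eq_true, if_false] at h
      rcases (hmem n v u).1 h with h | ⟨_, a, h3, h4⟩
      · exact absurd rfl (hn _ h)
      · simp [dm, h3, h4]
    · unfold stp at h
      simp only [if_true] at h
      rcases (hmem n u v).1 h with h | ⟨_, a, h3, h4⟩
      · exact absurd rfl (hn _ h)
      · simp [dm, h3, h4]
  have hinj : Inj E' := by
    rintro ⟨k, b⟩ u v v' h3 h4
    by_cases hk : k = n
    · subst hk
      cases b
      · unfold stp at h3 h4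
        simp only [Bool.false_eq_true, if_false] at h3 h4
        rcases (hmem k v u).1 h3 with h3 | ⟨_, a, h5, h6⟩
        · exact absurd rfl (hn _ h3)
        · rcases (hmem k v' u).1 h4 with h4 | ⟨_, a', h7, h8⟩
          · exact absurd rfl (hn _ h4)
          · rw [h6] at h8
            have := β.injective (Subtype.ext h8)
            rw [h5, h7, this]
      · unfold stp at h3 h4
        simp only [if_true] at h3 h4
        rcases (hmem k u v).1 h3 with h3 | ⟨_, a, h5, h6⟩
        · exact absurd rfl (hn _ h3)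
        · rcases (hmem k u v').1 h4 with h4 | ⟨_, a', h7, h8⟩
          · exact absurd rfl (hn _ h4)
          · rw [h5] at h7
            have : a = a' := Subtype.ext h7
            rw [h6, h8, this]
    · exact hG.inj _ u v v' (hold _ _ _ hk h3) (hold _ _ _ hk h4)
  have hsub : ∀ {P Q : Finset ℕ}, P.card = t → Q.card = t → P ⊆ Q → P = Q := by
    intro P Q hP hQ hPQ
    exact Finset.eq_of_subset_of_card_le hPQ (by omega)
  -- structure of words
  have claim : ∀ w, Red w → ∀ S T : Finset ℕ, S.card = t → T.card = t → mp E' w S T →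
      (mp E w S T) ∨ ∃ (b : Bool) (u1 u0 : List (ℕ × Bool)), w = u1 ++ (n, b) :: u0 ∧
        mp E u0 S (dm b) ∧ mp E u1 (dm (!b)) T := by
    intro w
    induction w with
    | nil => intro _ S T _ _ h; exact Or.inl h
    | cons l w ih =>
      intro hr S T hS hT hm
      have hr' : Red w := (List.isChain_cons.1 hr).2
      obtain ⟨C, hC1, hC2, hC3⟩ := mp_split (u := [l]) (v := w) hinj (hS.trans hT.symm) hm
      have hCt : C.card = t := hC1.trans hS
      rcases l with ⟨k, b⟩
      by_cases hk : k = n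
      · subst hk
        have hCd : C = dm b := by
          apply hsub hCt (hdm b)
          intro z hz
          obtain ⟨v, hv, z', h5, h6⟩ := hC3 z hz
          have h7 : z = z' := h5
          subst h7
          exact (hnew b z v h6).1
        have hTd : T = dm (!b) := by
          apply hsub hT (hdm _)
          intro v hv
          obtain ⟨z, hz, z', h5, h6⟩ := mp_surj hinj (hCt.trans hT.symm) hC3 v hv
          exact (hnew b z' v h6).2
        rcases ih hr' S C hS hCt hC2 with h5 | ⟨b', u1, u0, h5, h6, h7⟩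
        · right
          refine ⟨b, [], w, rfl, ?_, ?_⟩
          · rw [← hCd]; exact h5
          · rw [← hTd]
            intro x hx
            exact ⟨x, hx, rfl⟩
        · exfalso
          rw [hCd] at h7
          by_cases hbb : b = b'
          · subst hbb
            cases b
            · exact h1 u1 h7
            · exact h2 u1 h7
          · have hb' : (!b') = b := by
              cases b <;> cases b' <;> simp_all
            rw [hb'] at h7
            by_cases hu1 : u1 = []
            · subst hu1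
              rw [h5, List.nil_append] at hr
              have h8 := (List.isChain_cons_cons.1 hr).1 rfl
              exact hbb h8
            · refine hG.free u1 hu1 ?_ (dm b) (hdm b) h7
              rw [h5] at hr'
              exact (List.isChain_append.1 hr').1
      · rcases ih hr' S C hS hCt hC2 with h5 | ⟨b', u1, u0, h5, h6, h7⟩
        · left
          have h8 : mp E ([(k, b)] ++ w) S T := by
            refine mp_comp h5 ?_
            intro z hz
            obtain ⟨v, hv, z', h9, h10⟩ := hC3 z hz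
            exact ⟨v, hv, z', h9, hold _ _ _ hk h10⟩
          exact h8
        · right
          refine ⟨b', (k, b) :: u1, u0, by rw [h5]; rfl, h6, ?_⟩
          have h8 : mp E ([(k, b)] ++ u1) (dm (!b')) T := by
            refine mp_comp h7 ?_
            intro z hz
            obtain ⟨v, hv, z', h9, h10⟩ := hC3 z hz
            exact ⟨v, hv, z', h9, hold _ _ _ hk h10⟩
          exact h8
  refine ⟨E', hE, ⟨hinj, ?_⟩, [(n, true)], ?_⟩
  · intro w hw hr S hS hm
    rcases claim w hr S S hS hS hm with h5 | ⟨b, u1, u0, h5, h6, h7⟩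
    · exact hG.free w hw hr S hS h5
    · have h8 := mp_comp h7 h6
      cases b
      · exact h1 _ h8
      · exact h2 _ h8
  · intro x hx
    refine ⟨β ⟨x, hx⟩, (β ⟨x, hx⟩).2, x, rfl, ?_⟩
    unfold stp
    simp only [if_true]
    exact (hmem n x _).2 (Or.inr ⟨rfl, ⟨x, hx⟩, rfl, rfl⟩)

/-- tasks -/
abbrev Task := ((ℕ × Bool) × ℕ) ⊕ (Finset ℕ × Finset ℕ)

/-- fulfilled tasks -/
def Ful (t : ℕ) (E : St) : Task → Prop
  | Sum.inl (l, x) => ∃ y, stp E l x y
  | Sum.inr (A, B) => A.card = t → B.card = t → (∃ w, mp E w A B) ∨ (∃ w, mp E w B A)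

theorem step {t : ℕ} {E : St} (hG : Good t E) (τ : Task) :
    ∃ E' : St, E ⊆ E' ∧ Good t E' ∧ Ful t E' τ := by
  classical
  rcases τ with ⟨l, x⟩ | ⟨A, B⟩
  · by_cases h : ∃ y, stp E l x y
    · exact ⟨E, Finset.Subset.refl _, hG, h⟩
    · push Not at h
      obtain ⟨y, hy⟩ := Infinite.exists_notMem_finset
        (insert x (E.image (fun p => p.2.1) ∪ E.image (fun p => p.2.2)))
      simp only [Finset.mem_insert, Finset.mem_union, Finset.mem_image, not_or, not_exists,
        not_and] at hy
      obtain ⟨E', h1, h2, h3⟩ := leaf hG l x y (Ne.symm hy.1) h (by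
        rintro ⟨k, b⟩ v hs
        unfold stp at hs
        split_ifs at hs
        · exact hy.2.1 _ hs rfl
        · exact hy.2.2 _ hs rfl)
      exact ⟨E', h1, h2, y, h3⟩
  · by_cases hA : A.card = t
    · by_cases hB : B.card = t
      · by_cases h : (∃ w, mp E w A B) ∨ (∃ w, mp E w B A)
        · exact ⟨E, Finset.Subset.refl _, hG, fun _ _ => h⟩
        · push Not at h
          obtain ⟨E', h1, h2, h3⟩ := newgen hG A B hA hB h.1 h.2
          exact ⟨E', h1, h2, fun _ _ => Or.inl h3⟩
      · exact ⟨E, Finset.Subset.refl _, hG, fun _ hB' => absurd hB' hB⟩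
    · exact ⟨E, Finset.Subset.refl _, hG, fun hA' => absurd hA' hA⟩

theorem exists_chain {t : ℕ} (ht : 1 ≤ t) : ∃ E : ℕ → St, (∀ m n, m ≤ n → E m ⊆ E n) ∧
    (∀ n, Good t (E n)) ∧ ∀ τ : Task, ∃ n, Ful t (E n) τ := by
  classical
  obtain ⟨g, hg⟩ := exists_surjective_nat Task
  choose! nx h1 h2 h3 using fun (E : St) (hG : Good t E) (τ : Task) => step hG τ
  let E : ℕ → St := fun n => Nat.rec ∅ (fun n E => nx E (g n)) n
  have hE : ∀ n, E (n + 1) = nx (E n) (g n) := fun n => rfl
  have hG : ∀ n, Good t (E n) := by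
    intro n
    induction n with
    | zero => exact good_empty ht
    | succ n ih => rw [hE]; exact h2 _ ih _
  refine ⟨E, ?_, hG, ?_⟩
  · intro m n hmn
    induction hmn with
    | refl => exact Finset.Subset.refl _
    | step _ ih => exact ih.trans (by rw [Nat.succ_eq_add_one, hE]; exact h1 _ (hG _) _)
  · intro τ
    obtain ⟨n, rfl⟩ := hg τ
    exact ⟨n + 1, by rw [hE]; exact h3 _ (hG n) _⟩

/-- For every `t ≥ 1` there is a sharply `t`-homogeneous group of permutations of `ℕ`. -/
theorem main {t : ℕ} (ht : 1 ≤ t) : ∃ G : Subgroup (Equiv.Perm ℕ),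
    ∀ A B : Finset ℕ, A.card = t → B.card = t →
      ∃! g : G, A.map (Equiv.toEmbedding (g : Equiv.Perm ℕ)) = B := by
  classical
  obtain ⟨E, hmono, hG, hful⟩ := exists_chain ht
  have htot : ∀ l x, ∃ y n, stp (E n) l x y := by
    intro l x
    obtain ⟨n, y, hy⟩ := hful (Sum.inl (l, x))
    exact ⟨y, n, hy⟩
  choose F N hF using htot
  have hdet : ∀ l x y n, stp (E n) l x y → y = F l x := by
    intro l x y n h
    exact (hG (max n (N l x))).inj l x y _ (stp_mono (hmono _ _ (le_max_left _ _)) h)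
      (stp_mono (hmono _ _ (le_max_right _ _)) (hF l x))
  have hinv : ∀ l x, F (linv l) (F l x) = x := by
    intro l x
    exact (hdet (linv l) (F l x) x (N l x) ((stp_linv _ _ _ _).2 (hF l x))).symm
  let s : ℕ → Equiv.Perm ℕ := fun k =>
    { toFun := F (k, true)
      invFun := F (k, false)
      left_inv := fun x => hinv (k, true) x
      right_inv := fun x => hinv (k, false) x }
  let Φ : FreeGroup ℕ →* Equiv.Perm ℕ := FreeGroup.lift s
  have hpath : ∀ w x, ∃ n, path (E n) w x (Φ (FreeGroup.mk w) x) := by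
    intro w
    induction w with
    | nil => intro x; exact ⟨0, rfl⟩
    | cons l w ih =>
      intro x
      obtain ⟨n, hn⟩ := ih x
      have h1 : Φ (FreeGroup.mk (l :: w)) x = F l (Φ (FreeGroup.mk w) x) := by
        have h2 : FreeGroup.mk (l :: w) = FreeGroup.mk [l] * FreeGroup.mk w := by
          rw [FreeGroup.mul_mk]; rfl
        rw [h2, map_mul, Equiv.Perm.mul_apply]
        rcases l with ⟨k, b⟩
        cases b
        · have h3 : Φ (FreeGroup.mk [(k, false)]) = (s k)⁻¹ := by
            simp [Φ]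
          rw [h3]
          rfl
        · have h3 : Φ (FreeGroup.mk [(k, true)]) = s k := by
            simp [Φ]
          rw [h3]
          rfl
      rw [h1]
      refine ⟨max n (N l (Φ (FreeGroup.mk w) x)), Φ (FreeGroup.mk w) x, ?_, ?_⟩
      · exact path_mono (hmono _ _ (le_max_left _ _)) w _ _ hn
      · exact stp_mono (hmono _ _ (le_max_right _ _)) (hF l _)
  have hpath' : ∀ w x y n, path (E n) w x y → y = Φ (FreeGroup.mk w) x := by
    intro w x y n h
    obtain ⟨m, hm⟩ := hpath w x
    exact (hG (max n m)).inj.path_det w x y _ (path_mono (hmono _ _ (le_max_left _ _)) w _ _ h)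
      (path_mono (hmono _ _ (le_max_right _ _)) w _ _ hm)
  have hmap : ∀ (g : Equiv.Perm ℕ) (A B : Finset ℕ), A.card = B.card → (∀ x ∈ A, g x ∈ B) →
      A.map (Equiv.toEmbedding g) = B := by
    intro g A B hc h
    apply Finset.eq_of_subset_of_card_le
    · intro y hy
      obtain ⟨x, hx, rfl⟩ := Finset.mem_map.1 hy
      exact h x hx
    · rw [Finset.card_map, hc]
  have hex : ∀ A B : Finset ℕ, A.card = B.card → ∀ n w, mp (E n) w A B →
      ∀ x ∈ A, Φ (FreeGroup.mk w) x ∈ B := by
    intro A B _ n w hm x hx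
    obtain ⟨y, hy, hp⟩ := hm x hx
    rw [← hpath' w x y n hp]
    exact hy
  refine ⟨Φ.range, ?_⟩
  intro A B hA hB
  have hex2 : ∃ g : Φ.range, A.map (Equiv.toEmbedding (g : Equiv.Perm ℕ)) = B := by
    obtain ⟨n, hn⟩ := hful (Sum.inr (A, B))
    rcases hn hA hB with ⟨w, hw⟩ | ⟨w, hw⟩
    · exact ⟨⟨Φ (FreeGroup.mk w), ⟨_, rfl⟩⟩, hmap _ A B (hA.trans hB.symm)
        (hex A B (hA.trans hB.symm) n w hw)⟩
    · refine ⟨⟨(Φ (FreeGroup.mk w))⁻¹, Subgroup.inv_mem _ ⟨_, rfl⟩⟩, ?_⟩
      have h1 := hmap _ B A (hB.trans hA.symm) (hex B A (hB.trans hA.symm) n w hw)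
      apply hmap _ A B (hA.trans hB.symm)
      intro x hx
      rw [← h1] at hx
      obtain ⟨y, hy, rfl⟩ := Finset.mem_map.1 hx
      simpa using hy
  obtain ⟨g, hg⟩ := hex2
  refine ⟨g, hg, ?_⟩
  intro g' hg'
  have hAA : ∀ x ∈ A, ((g' : Equiv.Perm ℕ)⁻¹ * g) x ∈ A := by
    intro x hx
    have h1 : (g : Equiv.Perm ℕ) x ∈ B := by
      rw [← hg]
      exact Finset.mem_map.2 ⟨x, hx, rfl⟩
    rw [← hg'] at h1
    obtain ⟨y, hy, hy2⟩ := Finset.mem_map.1 h1
    have : ((g' : Equiv.Perm ℕ)⁻¹ * g) x = y := by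
      rw [Equiv.Perm.mul_apply, ← hy2]
      simp
    rw [this]; exact hy
  obtain ⟨z, hz⟩ : ((g' : Equiv.Perm ℕ)⁻¹ * g) ∈ Φ.range :=
    Subgroup.mul_mem _ (Subgroup.inv_mem _ g'.2) g.2
  have hz' : Φ (FreeGroup.mk z.toWord) = (g' : Equiv.Perm ℕ)⁻¹ * g := by
    rw [FreeGroup.mk_toWord, hz]
  by_cases hw : z.toWord = []
  · have : z = 1 := FreeGroup.toWord_eq_nil_iff.1 hw
    rw [this, map_one] at hz
    apply Subtype.ext
    exact (inv_mul_eq_one.1 hz.symm)
  · exfalso
    have h1 : ∀ x, ∃ n, path (E n) z.toWord x (Φ (FreeGroup.mk z.toWord) x) := hpath z.toWord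
    choose nn hnn using h1
    refine (hG (A.sup nn)).free z.toWord hw ?_ A hA ?_
    · exact FreeGroup.isReduced_toWord
    · intro x hx
      refine ⟨_, ?_, path_mono (hmono _ _ (Finset.le_sup hx)) _ _ _ (hnn x)⟩
      rw [hz']
      exact hAA x hx

end Pool.Agent.H397R3.SharpHom
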