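import Mathlib
set_option autoImplicit false

/-!
Torsion-freeness of HNN extensions of torsion-free groups, and two embedding lemmas
for torsion-free groups (conjugating nontrivial elements; universal words).
The proof that an HNN extension of a torsion-free group is torsion-free follows
the file Helper694/CS/J_hnn_tf of the starting repository.
-/

namespace Pool.Agent.H397R3

/-- torsion-free groups -/
def TF (K : Type) [Group K] : Prop := ∀ k : K, k ≠ 1 → ¬ IsOfFinOrder k

section hnn
open HNNExtension HNNExtension.NormalWord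

theorem hnn_word {K : Type} [Group K] {A B : Subgroup K} (φ : A ≃* B)
    (g : HNNExtension K A B φ) :
    ∃ w : HNNExtension.NormalWord.ReducedWord K A B, w.prod φ = g := by
  obtain ⟨d⟩ := HNNExtension.NormalWord.TransversalPair.nonempty K A B
  refine ⟨(g • (HNNExtension.NormalWord.empty : HNNExtension.NormalWord d)).toReducedWord, ?_⟩
  rw [HNNExtension.NormalWord.prod_smul, HNNExtension.NormalWord.prod_empty, mul_one]

/-- the product of a list of letters. -/
noncomputable def lp {K : Type} [Group K] {A B : Subgroup K} (φ : A ≃* B) (l : List (ℤˣ × K)) :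
    HNNExtension K A B φ := (l.map (fun x => t ^ (x.1 : ℤ) * of x.2)).prod

theorem lp_append {K : Type} [Group K] {A B : Subgroup K} (φ : A ≃* B) (l l' : List (ℤˣ × K)) :
    lp φ (l ++ l') = lp φ l * lp φ l' := by
  simp [lp]

theorem lp_nil {K : Type} [Group K] {A B : Subgroup K} (φ : A ≃* B) :
    lp φ ([] : List (ℤˣ × K)) = 1 := by
  simp [lp]

theorem lp_cons {K : Type} [Group K] {A B : Subgroup K} (φ : A ≃* B) (a : ℤˣ × K)
    (l : List (ℤˣ × K)) :
    lp φ (a :: l) = t ^ (a.1 : ℤ) * of a.2 * lp φ l := by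
  simp [lp]

theorem lp_rep {K : Type} [Group K] {A B : Subgroup K} (φ : A ≃* B) (l : List (ℤˣ × K)) (m : ℕ) :
    lp φ ((List.replicate m l).flatten) = (lp φ l) ^ m := by
  induction m with
  | zero => simp [lp]
  | succ m ih =>
    rw [List.replicate_succ, List.flatten_cons, lp_append, ih, pow_succ']

theorem cyc {K : Type} [Group K] {A B : Subgroup K} (φ : A ≃* B) (l : List (ℤˣ × K))
    (hl : l ≠ [])
    (hc : l.IsChain (fun a b => a.2 ∈ toSubgroup A B a.1 → a.1 = b.1))
    (hh : ∀ x ∈ l.getLast?, ∀ y ∈ l.head?, x.2 ∈ toSubgroup A B x.1 → x.1 = y.1) :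
    ¬ IsOfFinOrder (lp φ l) := by
  intro h
  obtain ⟨m, hm, hp⟩ := isOfFinOrder_iff_pow_eq_one.1 h
  have hch : ((List.replicate m l).flatten).IsChain
      (fun a b => a.2 ∈ toSubgroup A B a.1 → a.1 = b.1) := by
    rw [List.isChain_flatten]
    · refine ⟨?_, ?_⟩
      · intro l' hl'
        rw [List.eq_of_mem_replicate hl']; exact hc
      · exact List.isChain_replicate_of_rel m hh
    · intro h'
      exact hl (List.eq_of_mem_replicate h').symm
  have := ReducedWord.toList_eq_nil_of_mem_of_range φ
    (⟨1, (List.replicate m l).flatten, hch⟩ : ReducedWord K A B) (by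
      have : (⟨1, (List.replicate m l).flatten, hch⟩ : ReducedWord K A B).prod φ = 1 := by
        show of 1 * lp φ ((List.replicate m l).flatten) = 1
        rw [lp_rep, hp, map_one, one_mul]
      rw [this]
      exact one_mem _)
  simp only [List.flatten_eq_nil_iff] at this
  exact hl (this l (List.mem_replicate.2 ⟨by omega, rfl⟩))

theorem conj_fin {G : Type} [Group G] (a b : G) (h : IsOfFinOrder a) :
    IsOfFinOrder (b * a * b⁻¹) := by
  have := MonoidHom.isOfFinOrder (MulAut.conj b).toMonoidHom h
  simpa using this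

/-- right multiplication by a base element. -/
theorem rmul {K : Type} [Group K] {A B : Subgroup K} (φ : A ≃* B) (h k : K) (l : List (ℤˣ × K))
    (hc : l.IsChain (fun a b => a.2 ∈ toSubgroup A B a.1 → a.1 = b.1)) :
    ∃ w : ReducedWord K A B, w.prod φ = of h * lp φ l * of k ∧ w.toList.length = l.length := by
  rcases List.eq_nil_or_concat' l with rfl | ⟨L, ⟨e, x⟩, rfl⟩
  · refine ⟨⟨h * k, [], List.isChain_nil⟩, ?_, rfl⟩
    show of (h * k) * lp φ [] = _
    simp [lp]
  · refine ⟨⟨h, L ++ [(e, x * k)], ?_⟩, ?_, by simp⟩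
    · rw [List.isChain_append] at hc ⊢
      refine ⟨hc.1, by simp, ?_⟩
      intro a ha b hb
      have := hc.2.2 a ha (e, x) (by simp)
      simp only [List.head?_cons, Option.mem_def, Option.some.injEq] at hb
      subst hb
      exact this
    · show of h * lp φ (L ++ [(e, x * k)]) = _
      rw [lp_append, lp_append]
      simp [lp, mul_assoc]

theorem slide {K : Type} [Group K] {A B : Subgroup K} (φ : A ≃* B) (e : ℤˣ) (y : K)
    (hy : y ∈ toSubgroup A B e) :
    ∃ k : K, (t : HNNExtension K A B φ) ^ (e : ℤ) * of y = of k * t ^ (e : ℤ) := by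
  rcases Int.units_eq_one_or e with rfl | rfl
  · refine ⟨φ ⟨y, hy⟩, ?_⟩
    have := t_mul_of (φ := φ) ⟨y, hy⟩
    simpa using this
  · refine ⟨φ.symm ⟨y, hy⟩, ?_⟩
    have := inv_t_mul_of (φ := φ) ⟨y, hy⟩
    simpa using this

theorem main {K : Type} [Group K] {A B : Subgroup K} (φ : A ≃* B)
    (tf : ∀ k : K, k ≠ 1 → ¬ IsOfFinOrder k) (n : ℕ) :
    ∀ w : ReducedWord K A B, w.toList.length = n → w.prod φ ≠ 1 → ¬ IsOfFinOrder (w.prod φ) := by
  induction n using Nat.strong_induction_on with
  | _ n ih =>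
  rintro ⟨h, l, hc⟩ hn hne hfin
  simp only at hn
  have e0 : (⟨h, l, hc⟩ : ReducedWord K A B).prod φ = of h * lp φ l := rfl
  rw [e0] at hne hfin
  rcases List.eq_nil_or_concat' l with rfl | ⟨L, ⟨e, x⟩, rfl⟩
  · rw [lp_nil, mul_one] at hne hfin
    have h1 : h ≠ 1 := by rintro rfl; simp at hne
    exact tf h h1 ((Function.Injective.isOfFinOrder_iff (HNNExtension.of_injective (φ := φ))).1 hfin)
  · have hc' : (L ++ [(e, x * h)]).IsChain
        (fun a b => a.2 ∈ toSubgroup A B a.1 → a.1 = b.1) := by
      rw [List.isChain_append] at hc ⊢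
      refine ⟨hc.1, by simp, ?_⟩
      intro a ha b hb
      have := hc.2.2 a ha (e, x) (by simp)
      simp only [List.head?_cons, Option.mem_def, Option.some.injEq] at hb
      subst hb
      exact this
    have e1 : lp φ (L ++ [(e, x * h)]) =
        (of h)⁻¹ * (of h * lp φ (L ++ [(e, x)])) * ((of h)⁻¹)⁻¹ := by
      rw [lp_append, lp_append]
      simp [lp, mul_assoc]
    have hfin1 : IsOfFinOrder (lp φ (L ++ [(e, x * h)])) := by
      rw [e1]; exact conj_fin _ _ hfin
    have hne1 : lp φ (L ++ [(e, x * h)]) ≠ 1 := by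
      rw [e1]
      intro h'
      exact hne (conj_eq_one_iff.1 h')
    by_cases hh : ∀ a ∈ (L ++ [(e, x * h)]).getLast?, ∀ b ∈ (L ++ [(e, x * h)]).head?,
        a.2 ∈ toSubgroup A B a.1 → a.1 = b.1
    · exact cyc φ _ (by simp) hc' hh hfin1
    · push Not at hh
      obtain ⟨a, ha, b, hb, hab, hne'⟩ := hh
      have ha' : a = (e, x * h) := by
        simpa [eq_comm] using ha
      subst ha'
      rcases L with _ | ⟨c, L'⟩
      · have hb' : b = (e, x * h) := by
          simpa [eq_comm] using hb
        subst hb'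
        exact hne' rfl
      · have hb' : b = c := by
          simpa [eq_comm] using hb
        subst hb'
        simp only at hab hne'
        have hbe : b.1 = -e := by
          rw [← Int.units_ne_iff_eq_neg]; exact fun h => hne' h.symm
        obtain ⟨k, hk⟩ := slide φ e (x * h) hab
        have hcL : L'.IsChain (fun a b => a.2 ∈ toSubgroup A B a.1 → a.1 = b.1) := by
          rw [List.cons_append, List.isChain_cons] at hc
          exact (List.isChain_append.1 hc.2).1
        obtain ⟨w, hw1, hw2⟩ := rmul φ b.2 k L' hcL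
        have e2 : w.prod φ = t ^ (e : ℤ) * lp φ (b :: L' ++ [(e, x * h)]) *
            (t ^ (e : ℤ))⁻¹ := by
          rw [hw1, List.cons_append, lp_cons, lp_append, lp_cons, lp_nil, mul_one, hk, hbe]
          simp [mul_assoc]
        refine ih w.toList.length ?_ w rfl ?_ ?_
        · rw [hw2, ← hn]; simp
        · rw [e2]
          intro h'
          exact hne1 (conj_eq_one_iff.1 h')
        · rw [e2]
          exact conj_fin _ _ hfin1

theorem hnn_tf {K : Type} [Group K] {A B : Subgroup K} (φ : A ≃* B)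
    (tf : TF K) : TF (HNNExtension K A B φ) := by
  intro g hg
  obtain ⟨w, rfl⟩ := hnn_word φ g
  exact main φ tf _ w rfl hg

end hnn

theorem cyciso_aux {K : Type} [Group K] (u : K) (hu : ¬ IsOfFinOrder u) :
    ∃ e : Multiplicative ℤ ≃* Subgroup.zpowers u,
      e (Multiplicative.ofAdd 1) = ⟨u, Subgroup.mem_zpowers u⟩ := by
  let f : Multiplicative ℤ →* Subgroup.zpowers u :=
    zpowersHom (Subgroup.zpowers u) ⟨u, Subgroup.mem_zpowers u⟩
  have hf : ∀ n : ℤ, ((f (Multiplicative.ofAdd n) : Subgroup.zpowers u) : K) = u ^ n := by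
    intro n
    simp [f, zpowersHom_apply]
  have hinj : Function.Injective f := by
    intro m n h
    have h1 : ((f m : Subgroup.zpowers u) : K) = f n := by rw [h]
    have h2 := hf (Multiplicative.toAdd m)
    have h3 := hf (Multiplicative.toAdd n)
    rw [ofAdd_toAdd] at h2 h3
    rw [h2, h3] at h1
    exact Multiplicative.toAdd.injective (injective_zpow_iff_not_isOfFinOrder.2 hu h1)
  have hsurj : Function.Surjective f := by
    rintro ⟨x, n, rfl⟩
    refine ⟨Multiplicative.ofAdd n, ?_⟩
    apply Subtype.ext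
    exact hf n
  refine ⟨MulEquiv.ofBijective f ⟨hinj, hsurj⟩, ?_⟩
  apply Subtype.ext
  have := hf 1
  rw [zpow_one] at this
  exact this

theorem cyciso {K : Type} [Group K] (u v : K) (hu : ¬ IsOfFinOrder u) (hv : ¬ IsOfFinOrder v) :
    ∃ φ : Subgroup.zpowers u ≃* Subgroup.zpowers v,
      φ ⟨u, Subgroup.mem_zpowers u⟩ = ⟨v, Subgroup.mem_zpowers v⟩ := by
  obtain ⟨e, he⟩ := cyciso_aux u hu
  obtain ⟨e', he'⟩ := cyciso_aux v hv
  refine ⟨e.symm.trans e', ?_⟩
  rw [MulEquiv.trans_apply, ← he, MulEquiv.symm_apply_apply, he']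

/-- two nontrivial elements of a torsion-free group become conjugate in a torsion-free
overgroup. -/
theorem conj_ext {K : Type} [Group K] (tf : TF K) (w x : K) (hw : w ≠ 1) (hx : x ≠ 1) :
    ∃ (K' : Type) (_ : Group K') (j : K →* K'), Function.Injective j ∧ TF K' ∧
      ∃ k : K', k * j w * k⁻¹ = j x := by
  obtain ⟨φ, hφ⟩ := cyciso w x (tf w hw) (tf x hx)
  refine ⟨HNNExtension K _ _ φ, inferInstance, HNNExtension.of, HNNExtension.of_injective φ,
    hnn_tf φ tf, HNNExtension.t, ?_⟩
  have h := HNNExtension.equiv_eq_conj (φ := φ) ⟨w, Subgroup.mem_zpowers w⟩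
  rw [hφ] at h
  exact h.symm

/-- finitely many pairs of nontrivial elements become conjugate simultaneously. -/
theorem conj_ext_many {K : Type} [Group K] (tf : TF K) (w x : ℕ → K) (P : ℕ → Prop)
    (h : ∀ i, P i → w i ≠ 1 ∧ x i ≠ 1) (n : ℕ) :
    ∃ (K' : Type) (_ : Group K') (j : K →* K'), Function.Injective j ∧ TF K' ∧
      ∃ k : ℕ → K', ∀ i, i < n → P i → k i * j (w i) * (k i)⁻¹ = j (x i) := by
  classical
  induction n with
  | zero => exact ⟨K, inferInstance, MonoidHom.id K, fun _ _ h => h, tf, fun _ => 1, by simp⟩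
  | succ n ih =>
    obtain ⟨K', _, j, hj, tf', k, hk⟩ := ih
    by_cases hn : P n
    · have h1 : j (w n) ≠ 1 := fun h' => (h n hn).1 (hj (by simpa using h'))
      have h2 : j (x n) ≠ 1 := fun h' => (h n hn).2 (hj (by simpa using h'))
      obtain ⟨K'', _, j', hj', tf'', κ, hκ⟩ := conj_ext tf' _ _ h1 h2
      refine ⟨K'', inferInstance, j'.comp j, hj'.comp hj, tf'',
        fun i => if i < n then j' (k i) else κ, ?_⟩
      intro i hi hPi
      rcases Nat.lt_succ_iff_lt_or_eq.1 hi with hlt | rfl
      · simp only [hlt, if_true, MonoidHom.comp_apply]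
        rw [← map_inv, ← map_mul, ← map_mul, hk i hlt hPi]
      · simp only [lt_irrefl, if_false, MonoidHom.comp_apply]
        exact hκ
    · refine ⟨K', inferInstance, j, hj, tf', k, ?_⟩
      intro i hi hPi
      rcases Nat.lt_succ_iff_lt_or_eq.1 hi with hlt | rfl
      · exact hk i hlt hPi
      · exact absurd hPi hn

/-- The universal words. -/
def E {K : Type} [Group K] (i : ℕ) (a b c : K) : K :=
  (b ^ i * a * (b ^ i)⁻¹)⁻¹ * (c * (a ^ i * b * (a ^ i)⁻¹) * c⁻¹)

theorem map_E {K L : Type} [Group K] [Group L] (j : K →* L) (i : ℕ) (a b c : K) :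
    j (E i a b c) = E i (j a) (j b) (j c) := by
  simp [E]

/-- the shift on the free group on `ℤ`. -/
def shiftAut : Multiplicative ℤ →* MulAut (FreeGroup ℤ) where
  toFun n := FreeGroup.freeGroupCongr (Equiv.addRight (Multiplicative.toAdd n))
  map_one' := by
    apply MulEquiv.ext
    intro x
    have : (FreeGroup.freeGroupCongr (Equiv.addRight (Multiplicative.toAdd (1 : Multiplicative ℤ)))).toMonoidHom
        = MonoidHom.id (FreeGroup ℤ) := by
      apply FreeGroup.ext_hom
      intro z
      simp
    exact DFunLike.congr_fun this x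
  map_mul' m n := by
    apply MulEquiv.ext
    intro x
    have : (FreeGroup.freeGroupCongr (Equiv.addRight (Multiplicative.toAdd (m * n)))).toMonoidHom
        = (FreeGroup.freeGroupCongr (Equiv.addRight (Multiplicative.toAdd m))).toMonoidHom.comp
          (FreeGroup.freeGroupCongr (Equiv.addRight (Multiplicative.toAdd n))).toMonoidHom := by
      apply FreeGroup.ext_hom
      intro z
      simp [add_comm, add_left_comm]
    exact DFunLike.congr_fun this x

theorem free_conj_inj (p q : Bool) (hpq : p ≠ q) :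
    Function.Injective (FreeGroup.lift (fun i : ℕ =>
      (FreeGroup.of p ^ i * FreeGroup.of q * (FreeGroup.of p ^ i)⁻¹ : FreeGroup Bool))) := by
  let ψ : FreeGroup Bool →* (FreeGroup ℤ ⋊[shiftAut] Multiplicative ℤ) :=
    FreeGroup.lift (fun x => if x = p then SemidirectProduct.inr (Multiplicative.ofAdd 1)
      else SemidirectProduct.inl (FreeGroup.of 0))
  have key : ψ.comp (FreeGroup.lift (fun i : ℕ =>
      (FreeGroup.of p ^ i * FreeGroup.of q * (FreeGroup.of p ^ i)⁻¹ : FreeGroup Bool))) =
      SemidirectProduct.inl.comp (FreeGroup.map (fun i : ℕ => (i : ℤ))) := by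
    apply FreeGroup.ext_hom
    intro i
    have h1 : ψ (FreeGroup.of p) = SemidirectProduct.inr (Multiplicative.ofAdd 1) := by
      simp [ψ]
    have h2 : ψ (FreeGroup.of q) = SemidirectProduct.inl (FreeGroup.of 0) := by
      simp [ψ, Ne.symm hpq]
    simp only [MonoidHom.comp_apply, FreeGroup.lift_apply_of, map_mul, map_inv, map_pow, h1, h2,
      FreeGroup.map.of]
    rw [← map_pow, ← map_inv, ← SemidirectProduct.inl_aut]
    congr 1
    simp [shiftAut]
  have hinj : Function.Injective (SemidirectProduct.inl.comp (FreeGroup.map (fun i : ℕ => (i : ℤ)))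
      : FreeGroup ℕ →* (FreeGroup ℤ ⋊[shiftAut] Multiplicative ℤ)) := by
    rw [MonoidHom.coe_comp]
    exact SemidirectProduct.inl_injective.comp (FreeGroup.map_injective (fun _ _ h => by simpa using h))
  rw [← key, MonoidHom.coe_comp] at hinj
  exact hinj.of_comp

theorem free_tf (α : Type) : TF (FreeGroup α) := by
  intro c hc
  classical
  exact not_isOfFinOrder_of_isMulTorsionFree hc

theorem prod_tf {K L : Type} [Group K] [Group L] (hK : TF K) (hL : TF L) : TF (K × L) := by
  rintro ⟨x, y⟩ hne hfin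
  have hx : IsOfFinOrder x := by
    simpa using MonoidHom.isOfFinOrder (MonoidHom.fst K L) hfin
  have hy : IsOfFinOrder y := by
    simpa using MonoidHom.isOfFinOrder (MonoidHom.snd K L) hfin
  by_cases h1 : x = 1
  · by_cases h2 : y = 1
    · subst h1; subst h2; exact hne rfl
    · exact hL y h2 hy
  · exact hK x h1 hx

/-- every sequence of elements of a torsion-free group is the sequence of values of the
universal words in a torsion-free overgroup. -/
theorem univ_ext {K : Type} [Group K] (tf : TF K) (v : ℕ → K) :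
    ∃ (K' : Type) (_ : Group K') (j : K →* K'), Function.Injective j ∧ TF K' ∧
      ∃ a b c : K', ∀ i, E i a b c = j (v i) := by
  let a0 : FreeGroup Bool := FreeGroup.of true
  let b0 : FreeGroup Bool := FreeGroup.of false
  let α : FreeGroup ℕ →* K × FreeGroup Bool :=
    FreeGroup.lift (fun i : ℕ => ((1 : K), a0 ^ i * b0 * (a0 ^ i)⁻¹))
  let β : FreeGroup ℕ →* K × FreeGroup Bool :=
    FreeGroup.lift (fun i : ℕ => (v i, b0 ^ i * a0 * (b0 ^ i)⁻¹))
  have hα : Function.Injective α := by
    have h : (MonoidHom.snd K (FreeGroup Bool)).comp α =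
        FreeGroup.lift (fun i : ℕ => a0 ^ i * b0 * (a0 ^ i)⁻¹) := by
      apply FreeGroup.ext_hom
      intro i
      simp [α]
    have h2 := free_conj_inj true false (by simp)
    rw [← h, MonoidHom.coe_comp] at h2
    exact h2.of_comp
  have hβ : Function.Injective β := by
    have h : (MonoidHom.snd K (FreeGroup Bool)).comp β =
        FreeGroup.lift (fun i : ℕ => b0 ^ i * a0 * (b0 ^ i)⁻¹) := by
      apply FreeGroup.ext_hom
      intro i
      simp [β]
    have h2 := free_conj_inj false true (by simp)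
    rw [← h, MonoidHom.coe_comp] at h2
    exact h2.of_comp
  let φ : α.range ≃* β.range := (MonoidHom.ofInjective hα).symm.trans (MonoidHom.ofInjective hβ)
  have hφ : ∀ x : FreeGroup ℕ, ((φ ⟨α x, ⟨x, rfl⟩⟩ : β.range) : K × FreeGroup Bool) = β x := by
    intro x
    have h1 : (MonoidHom.ofInjective hα) x = ⟨α x, ⟨x, rfl⟩⟩ := by
      apply Subtype.ext
      rfl
    simp only [φ, MulEquiv.trans_apply]
    rw [← h1, MulEquiv.symm_apply_apply]
    rfl
  refine ⟨HNNExtension (K × FreeGroup Bool) _ _ φ, inferInstance,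
    HNNExtension.of.comp (MonoidHom.inl K (FreeGroup Bool)), ?_, ?_,
    HNNExtension.of (1, a0), HNNExtension.of (1, b0), HNNExtension.t, ?_⟩
  · rw [MonoidHom.coe_comp]
    refine (HNNExtension.of_injective φ).comp ?_
    intro x y hxy
    simpa using hxy
  · exact hnn_tf φ (prod_tf tf (free_tf Bool))
  · intro i
    have h := HNNExtension.equiv_eq_conj (φ := φ) ⟨α (FreeGroup.of i), ⟨_, rfl⟩⟩
    rw [hφ] at h
    have e1 : α (FreeGroup.of i) = ((1 : K), a0) ^ i * ((1 : K), b0) * (((1 : K), a0) ^ i)⁻¹ := by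
      simp [α]
    have e2 : β (FreeGroup.of i) = (((1 : K), b0) ^ i * ((1 : K), a0) * (((1 : K), b0) ^ i)⁻¹)
        * (v i, 1) := by
      simp [β]
    simp only at h
    rw [e1, e2] at h
    unfold E
    have h3 : (HNNExtension.t : HNNExtension (K × FreeGroup Bool) _ _ φ) *
        (HNNExtension.of ((1 : K), a0) ^ i * HNNExtension.of ((1 : K), b0) *
          (HNNExtension.of ((1 : K), a0) ^ i)⁻¹) * HNNExtension.t⁻¹ =
        HNNExtension.of (((1 : K), b0) ^ i * ((1 : K), a0) * (((1 : K), b0) ^ i)⁻¹ * (v i, 1)) := by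
      rw [h]
      simp only [map_mul, map_inv, map_pow]
    rw [h3]
    simp only [map_mul, map_inv, map_pow, MonoidHom.comp_apply, MonoidHom.inl_apply]
    group

end Pool.Agent.H397R3
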